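import Pool.Agent.W251.GX.Defs
import Pool.Agent.W669.GA.MomF

/-!
Project GX (helper251), MOM: mixed moments of `PF` and `GF`, all frequencies, for a bounded
function `F`. Port of `Pool.Agent.W193.FP.Momf`.
-/

set_option autoImplicit false

namespace Pool.Agent.W179.GX

open Finset Filter
open Pool.Agent.H376R2.MR (lam w FK cell ge smoo_ge_le smoo_sigma_cell smoo_lcm_sum smoo_prod_dvd
  mom_w_nonneg mom_w_le_one)
open Pool.Agent.W78.GA
open Pool.Agent.W251.GX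
open Pool.Agent.W669.GA (SG mem_SG PrG count_pairs cs_div tau_sum Pset_sum Big big_sm
  tuple_dvd_big mem_cellM sm_prod sm_M nm_prod_ele lat_prod_ele content tuple_log tauL mem_Pset
  ps_prod)

variable {t c : ℤ}

theorem PF_pow (hD : t ^ 2 < 4 * c) (F : Qd t c → ℂ) (M : ℕ → Prop) (ϖ : ℕ → Qd t c)
    (H r ℓ : ℕ) (k : ℤ) :
    PF F M ϖ H r k ^ ℓ = (-1) ^ ℓ * ∑ m ∈ Fintype.piFinset (fun _ : Fin ℓ => cellM M H r),
      (∏ i, F (ϖ (m i))) * ps k (∏ i, ϖ (m i)) / ((∏ i, m i : ℕ) : ℂ) := by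
  unfold PF
  rw [neg_pow, Finset.sum_pow']
  congr 1
  apply Finset.sum_congr rfl
  intro m hm
  rw [Finset.prod_div_distrib, Finset.prod_mul_distrib, ps_prod hD]
  congr 1
  push_cast
  rfl

theorem coefF_norm {F : Qd t c → ℂ} (hF : ∀ z, ‖F z‖ ≤ 1) (Z : ℝ) (z : Qd t c) :
    ‖F z * (bg Z z : ℂ)‖ ≤ 1 / nm z := by
  have h1 : ‖F z‖ ≤ 1 := hF z
  have h2 : 0 ≤ bg Z z := by
    unfold bg
    have := mom_w_nonneg (Real.log (nm z) - Real.log Z)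
    positivity
  have h3 : bg Z z ≤ 1 / nm z := by
    unfold bg
    have := mom_w_le_one (Real.log (nm z) - Real.log Z)
    gcongr
  rw [norm_mul, Complex.norm_real, Real.norm_of_nonneg h2]
  calc ‖F z‖ * bg Z z ≤ 1 * bg Z z := mul_le_mul_of_nonneg_right h1 h2
    _ = bg Z z := one_mul _
    _ ≤ _ := h3

theorem GF_filter (F : Qd t c → ℂ) (Z : ℝ) (k : ℤ) :
    GF F Z k = ∑ z ∈ SG t c Z, F z * (bg Z z : ℂ) * ps k z := by
  unfold GF DPG SG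
  rw [Finset.sum_filter_of_ne]
  intro n _ hn h0
  apply hn
  rw [h0]
  simp

/-- coefficient of an index pair -/
noncomputable def cfF (F : Qd t c → ℂ) (ϖ : ℕ → Qd t c) (ℓ : ℕ) (Z : ℝ)
    (x : (Fin ℓ → ℕ) × Qd t c) : ℂ :=
  ((∏ i, F (ϖ (x.1 i))) * (F x.2 * (bg Z x.2 : ℂ))) / ((∏ i, x.1 i : ℕ) : ℂ)

theorem prod_expandF (hD : t ^ 2 < 4 * c) (F : Qd t c → ℂ) (M : ℕ → Prop) (ϖ : ℕ → Qd t c)
    (H r ℓ : ℕ) (Z : ℝ) (k : ℤ) :
    PF F M ϖ H r k ^ ℓ * GF F Z k =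
      (-1) ^ ℓ * ∑ x ∈ PrG t c M H r ℓ Z, cfF F ϖ ℓ Z x * ps k ((∏ i, ϖ (x.1 i)) * x.2) := by
  rw [PF_pow hD F M ϖ H r ℓ k, GF_filter, mul_assoc, Finset.sum_mul_sum, ← Finset.sum_product']
  congr 1
  apply Finset.sum_congr rfl
  intro x _
  unfold cfF
  rw [ps_mul hD]
  ring

theorem num_norm {F : Qd t c → ℂ} (hF : ∀ z, ‖F z‖ ≤ 1) (ϖ : ℕ → Qd t c) (ℓ : ℕ) (Z : ℝ)
    (x : (Fin ℓ → ℕ) × Qd t c) :
    ‖(∏ i, F (ϖ (x.1 i))) * (F x.2 * (bg Z x.2 : ℂ))‖ ≤ 1 / nm x.2 := by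
  have h1 := coefF_norm hF Z x.2
  have h2 : ‖∏ i, F (ϖ (x.1 i))‖ ≤ 1 := by
    rw [norm_prod]
    exact Finset.prod_le_one (fun i _ => norm_nonneg _) (fun i _ => hF _)
  rw [norm_mul]
  calc ‖∏ i, F (ϖ (x.1 i))‖ * ‖F x.2 * (bg Z x.2 : ℂ)‖ ≤ 1 * ‖F x.2 * (bg Z x.2 : ℂ)‖ :=
        mul_le_mul_of_nonneg_right h2 (norm_nonneg _)
    _ = ‖F x.2 * (bg Z x.2 : ℂ)‖ := one_mul _
    _ ≤ _ := h1

theorem mom {t c : ℤ} (hD : t ^ 2 < 4 * c) (hLS : S_LS t c) (_hLAT : S_LAT t c)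
    (hLATI : S_LATI t c) : Pool.Agent.W251.GX.S_MOM t c := by
  classical
  intro Ap Bp M E ρ ϖ hE F hFb
  obtain ⟨C₁, hC₁, hls⟩ := hLS
  obtain ⟨C₂, hC₂, htau'⟩ := tau_sum hD hLATI
  obtain ⟨C₃, hC₃, hPs⟩ := Pset_sum
  have htau := htau' Ap Bp M E ρ ϖ hE
  -- the constant
  set G : ℝ := Real.exp (2 * (C₃ * (E + 1))) with hG
  have hG0 : 0 < G := Real.exp_pos _
  set B₀ : ℝ := C₁ * C₂ * G ^ 5 * 2 * Real.exp 2 * 3 with hB0
  set C : ℝ := max 1 (max B₀ (2 * Real.exp 1)) with hCdef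
  have hC1 : 1 ≤ C := le_max_left _ _
  have hCB : B₀ ≤ C := (le_max_left _ _).trans (le_max_right _ _)
  have hCe : 2 * Real.exp 1 ≤ C := (le_max_right _ _).trans (le_max_right _ _)
  refine ⟨C, hC1, ?_⟩
  intro H r ℓ K Z hH hZ hK hKe
  set e := Real.exp 1 with he
  have he0 : 0 < e := Real.exp_pos 1
  have he3 : e < 3 := Real.exp_one_lt_three
  have he1 : 1 ≤ e := Real.one_le_exp zero_le_one
  have hZ0 : 0 < Z := by linarith
  have hHpos : (0 : ℝ) < H := by exact_mod_cast hH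
  have hH1 : (1 : ℝ) ≤ H := by exact_mod_cast hH
  set A : ℝ := Real.exp ((r : ℝ) * ℓ / H) with hA
  set B : ℝ := Real.exp (((r : ℝ) + 1) * ℓ / H) with hB
  have hA1 : (1 : ℝ) ≤ A := Real.one_le_exp (by positivity)
  have hAB : A ≤ B := by
    apply Real.exp_le_exp.2
    gcongr
    linarith
  have hA0 : 0 < A := by linarith
  have hB0' : 0 < B := by linarith
  have hBA : B = A * Real.exp ((ℓ : ℝ) / H) := by
    rw [hA, hB, ← Real.exp_add]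
    congr 1
    ring
  set M₀ : ℝ := Z / e * A with hM0
  set M₁ : ℝ := e * Z * B with hM1
  have hZe : (1 : ℝ) ≤ Z / e := by
    rw [le_div_iff₀ he0]
    linarith
  have hM0p : 0 < M₀ := by positivity
  have hM01 : 1 ≤ M₀ := by nlinarith
  have hM1eq : M₁ = M₀ * (e ^ 2 * Real.exp ((ℓ : ℝ) / H)) := by
    rw [hM1, hM0, hBA]
    field_simp
  have hfac : 1 ≤ e ^ 2 * Real.exp ((ℓ : ℝ) / H) := by
    have h1 : 1 ≤ e ^ 2 := one_le_pow₀ he1
    have h2 : 1 ≤ Real.exp ((ℓ : ℝ) / H) := Real.one_le_exp (by positivity)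
    nlinarith
  have hM0M1 : M₀ ≤ M₁ := by
    rw [hM1eq]
    nlinarith
  have hM11 : 1 ≤ M₁ := hM01.trans hM0M1
  have hKM : (K : ℝ) ≤ e * M₀ := by
    calc (K : ℝ) ≤ Z * A := hKe
      _ = e * (Z / e * A) := by field_simp
  -- the modulus
  set N : ℕ := Big Ap Bp E H r ℓ with hN
  have hNs := big_sm Ap Bp E H r ℓ
  rw [← hN] at hNs
  have hN0 : N ≠ 0 := hNs.1
  have hdvd : ∀ p ∈ Fintype.piFinset (fun _ : Fin ℓ => cellM M H r), (∏ i, p i) ∣ N :=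
    fun p hp => tuple_dvd_big hE hp
  have hsig : ∑ d ∈ N.divisors, 1 / (d : ℝ) ≤ G := by
    refine le_trans (smoo_sigma_cell _ (fun p hp => (mem_Pset.1 hp).2.2.1) ℓ)
      (Real.exp_le_exp.mpr ?_)
    have := hPs Ap Bp E H r hH
    linarith
  have hsig0 : 0 ≤ ∑ d ∈ N.divisors, 1 / (d : ℝ) := sum_nonneg fun _ _ => by positivity
  -- the tuples
  have htup : ∀ p ∈ Fintype.piFinset (fun _ : Fin ℓ => cellM M H r),
      Pool.Agent.W78.GA.Sm Ap Bp (∏ i, p i) ∧ nm (∏ i, ϖ (p i)) = ∏ i, p i ∧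
      lat (∏ i, p i) (ρ (∏ i, p i)) (∏ i, ϖ (p i)) := by
    intro p hp
    rw [Fintype.mem_piFinset] at hp
    have h1 : ∀ i ∈ (univ : Finset (Fin ℓ)), M (p i) := fun i _ => (Pool.Agent.W669.GA.mem_cellM (hp i)).1
    exact ⟨sm_prod _ _ fun i hi => sm_M hE (h1 i hi), nm_prod_ele hE _ _ h1,
      lat_prod_ele hE _ _ h1⟩
  -- contents
  have hcont : ∀ x : (Fin ℓ → ℕ) × Qd t c, ∃ (n m : ℕ) (u : Qd t c), x ∈ PrG t c M H r ℓ Z →
      (∏ i, x.1 i) = n * m ∧ prim u ∧ (∏ i, ϖ (x.1 i)) * x.2 = (n : Qd t c) * u ∧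
      lat m (ρ m) u := by
    intro x
    by_cases hx : x ∈ PrG t c M H r ℓ Z
    · have hx' := hx
      unfold PrG at hx'
      rw [mem_product] at hx'
      obtain ⟨h1, h2, h3⟩ := htup _ hx'.1
      obtain ⟨n, m, u, h⟩ := content hD hE h1 h2 h3 (mem_SG hD hZ0 hx'.2).1
      exact ⟨n, m, u, fun _ => h⟩
    · exact ⟨0, 0, 0, fun h => absurd h hx⟩
  choose cf mf uf hf using hcont
  -- numerical facts for an index pair
  have hnum : ∀ x ∈ PrG t c M H r ℓ Z, 0 < ((∏ i, x.1 i : ℕ) : ℝ) ∧ 0 < (nm x.2 : ℝ) ∧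
      0 < (cf x : ℝ) ∧
      ((∏ i, x.1 i : ℕ) : ℝ) * nm x.2 = (cf x : ℝ) ^ 2 * nm (uf x) ∧
      M₀ ≤ (cf x : ℝ) ^ 2 * nm (uf x) ∧ (cf x : ℝ) ^ 2 * nm (uf x) ≤ M₁ := by
    intro x hx
    obtain ⟨h1, h2, h3, h4⟩ := hf x hx
    have hx' := hx
    unfold PrG at hx'
    rw [mem_product] at hx'
    obtain ⟨h5, h6, h7⟩ := mem_SG hD hZ0 hx'.2
    obtain ⟨g1, g2, g3⟩ := htup _ hx'.1
    have h0 : (∏ i, x.1 i) ≠ 0 := g1.1
    have hP : (0 : ℝ) < ((∏ i, x.1 i : ℕ) : ℝ) := by exact_mod_cast Nat.pos_of_ne_zero h0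
    have hz : (0 : ℝ) < nm x.2 := nm_posR hD (prim_ne_zero h5)
    have hc : 0 < (cf x : ℝ) := by
      have : cf x ≠ 0 := by
        intro hc0
        rw [hc0, zero_mul] at h1
        exact h0 h1
      exact_mod_cast Nat.pos_of_ne_zero this
    have hid : ((∏ i, x.1 i : ℕ) : ℝ) * nm x.2 = (cf x : ℝ) ^ 2 * nm (uf x) := by
      have := congrArg nm h3
      rw [nm_mul, nm_mul, nm_natCast, g2] at this
      exact_mod_cast this
    have hlogs := tuple_log hE hx'.1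
    have hPA : A ≤ ((∏ i, x.1 i : ℕ) : ℝ) := by
      rw [hA, ← Real.le_log_iff_exp_le hP]
      exact hlogs.1
    have hPB : ((∏ i, x.1 i : ℕ) : ℝ) ≤ B := by
      rw [hB, ← Real.log_le_iff_le_exp hP]
      exact hlogs.2
    refine ⟨hP, hz, hc, hid, ?_, ?_⟩
    · rw [← hid, hM0]
      calc Z / e * A ≤ nm x.2 * ((∏ i, x.1 i : ℕ) : ℝ) := by gcongr
        _ = _ := by ring
    · rw [← hid, hM1]
      calc ((∏ i, x.1 i : ℕ) : ℝ) * nm x.2 ≤ B * (e * Z) := by gcongr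
        _ = _ := by ring
  -- the pieces
  set Pc : ℕ → Finset ((Fin ℓ → ℕ) × Qd t c) :=
    fun n => (PrG t c M H r ℓ Z).filter (fun x => cf x = n) with hPc
  set tc : ℕ → Finset (Qd t c) := fun n => (Pc n).image uf with htc
  set bc : ℕ → Qd t c → ℂ := fun n u => ∑ x ∈ (Pc n).filter (fun x => uf x = u), cfF F ϖ ℓ Z x
    with hbc
  have hpieces : ∀ k : ℤ, ‖PF F M ϖ H r k ^ ℓ * GF F Z k‖ ≤
      ‖∑ n ∈ N.divisors, DPG (tc n) (bc n) k‖ := by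
    intro k
    apply le_of_eq
    rw [prod_expandF hD F M ϖ H r ℓ Z k, norm_mul, norm_pow, norm_neg, norm_one, one_pow, one_mul]
    congr 1
    have hmaps : ∀ x ∈ PrG t c M H r ℓ Z, cf x ∈ N.divisors := by
      intro x hx
      obtain ⟨h1, h2, h3, h4⟩ := hf x hx
      have hx' := hx
      unfold PrG at hx'
      rw [mem_product] at hx'
      rw [Nat.mem_divisors]
      exact ⟨(Dvd.intro _ h1.symm).trans (hdvd _ hx'.1), hN0⟩
    rw [← sum_fiberwise_of_maps_to hmaps]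
    apply sum_congr rfl
    intro n _
    unfold DPG
    rw [← sum_fiberwise_of_maps_to (s := (PrG t c M H r ℓ Z).filter (fun x => cf x = n))
      (t := tc n) (g := uf) (fun x hx => mem_image_of_mem _ hx)]
    apply sum_congr rfl
    intro u _
    rw [hbc]
    simp only [sum_mul]
    apply sum_congr rfl
    intro x hx
    rw [mem_filter, mem_filter] at hx
    obtain ⟨⟨hx1, hx2⟩, hx3⟩ := hx
    obtain ⟨h1, h2, h3, h4⟩ := hf x hx1
    have hc0 : 0 < cf x := by exact_mod_cast (hnum x hx1).2.2.1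
    rw [h3, ps_natCast_mul hD hc0, hx3]
  have hmem : ∀ n, ∀ u ∈ tc n, 0 < (n : ℝ) ∧ prim u ∧ M₀ ≤ (n : ℝ) ^ 2 * nm u ∧
      (n : ℝ) ^ 2 * nm u ≤ M₁ := by
    intro n u hu
    rw [htc] at hu
    obtain ⟨x, hx, rfl⟩ := mem_image.1 hu
    rw [hPc, mem_filter] at hx
    obtain ⟨hx1, rfl⟩ := hx
    obtain ⟨n1, n2, n3, n4, n5, n6⟩ := hnum x hx1
    exact ⟨n3, (hf x hx1).2.1, n5, n6⟩
  -- coefficients
  have hcoef : ∀ n, ∀ u ∈ tc n, ‖bc n u‖ ≤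
      (ℓ.factorial : ℝ) ^ 2 * tauL ρ N u / ((n : ℝ) ^ 2 * nm u) := by
    intro n u hu
    obtain ⟨m1, m2, m3, m4⟩ := hmem n u hu
    have hden : 0 < (n : ℝ) ^ 2 * nm u := lt_of_lt_of_le hM0p m3
    have hcount := count_pairs (H := H) (r := r) (ℓ := ℓ) (Z := Z) hD hE cf mf uf
      (fun x hx => hf x hx) n u
    calc ‖bc n u‖ ≤ ∑ x ∈ (Pc n).filter (fun x => uf x = u), ‖cfF F ϖ ℓ Z x‖ := norm_sum_le _ _
      _ ≤ ∑ x ∈ (Pc n).filter (fun x => uf x = u), 1 / ((n : ℝ) ^ 2 * nm u) := by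
          apply sum_le_sum
          intro x hx
          rw [hPc, mem_filter, mem_filter] at hx
          obtain ⟨⟨hx1, hx2⟩, hx3⟩ := hx
          obtain ⟨n1, n2, n3, n4, n5, n6⟩ := hnum x hx1
          unfold cfF
          rw [norm_div, Complex.norm_natCast, ← hx2, ← hx3, ← n4]
          have h1 := num_norm hFb ϖ ℓ Z x
          calc _ ≤ (1 / (nm x.2 : ℝ)) / ((∏ i, x.1 i : ℕ) : ℝ) := by gcongr
            _ = _ := by
              rw [div_div, mul_comm]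
      _ = (((Pc n).filter (fun x => uf x = u)).card : ℝ) / ((n : ℝ) ^ 2 * nm u) := by
          rw [sum_const, nsmul_eq_mul]
          ring
      _ ≤ _ := by
          apply div_le_div_of_nonneg_right _ hden.le
          exact_mod_cast hcount
  -- the large sieve for one piece
  set FF : ℝ := C₁ * (K + M₁) * ((ℓ.factorial : ℝ) ^ 4 / M₀ *
    (C₂ * (1 + Real.log (M₁ / M₀)) * G ^ 3)) with hFF
  have hlog0 : 0 ≤ Real.log (M₁ / M₀) := Real.log_nonneg (by rwa [le_div_iff₀ hM0p, one_mul])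
  have hFF0 : 0 ≤ FF := by positivity
  have hpiece : ∀ n ∈ N.divisors, ∑ k ∈ FK K, ‖DPG (tc n) (bc n) k‖ ^ 2 ≤ FF / (n : ℝ) ^ 2 := by
    intro n hn
    have hcpos : 0 < (n : ℝ) := by exact_mod_cast Nat.pos_of_mem_divisors hn
    have hc1 : 1 ≤ (n : ℝ) := by exact_mod_cast Nat.pos_of_mem_divisors hn
    have h1 := hls M₁ K (tc n) (bc n) hM11 hK (by
      intro u hu
      obtain ⟨m1, m2, m3, m4⟩ := hmem n u hu
      refine ⟨m2, ?_⟩
      have hn0 : (0 : ℝ) ≤ nm u := Nat.cast_nonneg _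
      nlinarith [one_le_pow₀ (n := 2) hc1])
    have h2 := htau N (M₀ / (n : ℝ) ^ 2) (M₁ / (n : ℝ) ^ 2) (tc n) hNs (by positivity)
      (by gcongr) (by
        intro u hu
        obtain ⟨m1, m2, m3, m4⟩ := hmem n u hu
        refine ⟨prim_ne_zero m2, ?_, ?_⟩
        · rw [div_le_iff₀ (by positivity)]; linarith
        · rw [le_div_iff₀ (by positivity)]; linarith)
    have h3 : M₁ / (n : ℝ) ^ 2 / (M₀ / (n : ℝ) ^ 2) = M₁ / M₀ := by
      field_simp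
    rw [h3] at h2
    have h4 : ∑ u ∈ tc n, ‖bc n u‖ ^ 2 ≤ ((ℓ.factorial : ℝ) ^ 4 / M₀ / (n : ℝ) ^ 2) *
        ∑ u ∈ tc n, (tauL ρ N u : ℝ) ^ 2 / (nm u : ℝ) := by
      rw [mul_sum]
      apply sum_le_sum
      intro u hu
      obtain ⟨m1, m2, m3, m4⟩ := hmem n u hu
      have hu0 : (0 : ℝ) < nm u := nm_posR hD (prim_ne_zero m2)
      calc ‖bc n u‖ ^ 2 ≤ ((ℓ.factorial : ℝ) ^ 2 * tauL ρ N u / ((n : ℝ) ^ 2 * nm u)) ^ 2 := by
            gcongr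
            exact hcoef n u hu
        _ = ((ℓ.factorial : ℝ) ^ 4 * (tauL ρ N u : ℝ) ^ 2 / ((n : ℝ) ^ 2 * nm u)) *
            (1 / ((n : ℝ) ^ 2 * nm u)) := by
            field_simp
        _ ≤ ((ℓ.factorial : ℝ) ^ 4 * (tauL ρ N u : ℝ) ^ 2 / ((n : ℝ) ^ 2 * nm u)) * (1 / M₀) := by
            gcongr
        _ = _ := by
            field_simp
    calc _ ≤ _ := h1
      _ ≤ C₁ * (K + M₁) * (((ℓ.factorial : ℝ) ^ 4 / M₀ / (n : ℝ) ^ 2) *
          (C₂ * (1 + Real.log (M₁ / M₀)) * G ^ 3)) := by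
          apply mul_le_mul_of_nonneg_left _ (by positivity)
          refine le_trans h4 ?_
          apply mul_le_mul_of_nonneg_left _ (by positivity)
          refine le_trans h2 ?_
          apply mul_le_mul_of_nonneg_left _ (by positivity)
          exact pow_le_pow_left₀ hsig0 hsig 3
      _ = FF / (n : ℝ) ^ 2 := by
          rw [hFF]
          ring
  -- Cauchy-Schwarz over the contents
  have hCS : ∀ k : ℤ, ‖∑ n ∈ N.divisors, DPG (tc n) (bc n) k‖ ^ 2 ≤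
      (∑ n ∈ N.divisors, 1 / (n : ℝ)) * ∑ n ∈ N.divisors, (n : ℝ) * ‖DPG (tc n) (bc n) k‖ ^ 2 := by
    intro k
    exact cs_div N.divisors (fun n hn => Nat.pos_of_mem_divisors hn)
      (fun n => DPG (tc n) (bc n) k)
  have htotal : ∑ k ∈ FK K, ‖PF F M ϖ H r k ^ ℓ * GF F Z k‖ ^ 2 ≤ G ^ 2 * FF := by
    calc ∑ k ∈ FK K, ‖PF F M ϖ H r k ^ ℓ * GF F Z k‖ ^ 2
        ≤ ∑ k ∈ FK K, ‖∑ n ∈ N.divisors, DPG (tc n) (bc n) k‖ ^ 2 := by
          apply sum_le_sum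
          intro k _
          exact pow_le_pow_left₀ (norm_nonneg _) (hpieces k) 2
      _ ≤ ∑ k ∈ FK K, (∑ n ∈ N.divisors, 1 / (n : ℝ)) *
          ∑ n ∈ N.divisors, (n : ℝ) * ‖DPG (tc n) (bc n) k‖ ^ 2 := sum_le_sum fun k _ => hCS k
      _ = (∑ n ∈ N.divisors, 1 / (n : ℝ)) *
          ∑ n ∈ N.divisors, (n : ℝ) * ∑ k ∈ FK K, ‖DPG (tc n) (bc n) k‖ ^ 2 := by
          rw [← mul_sum, sum_comm]
          simp only [mul_sum]
      _ ≤ (∑ n ∈ N.divisors, 1 / (n : ℝ)) * ∑ n ∈ N.divisors, (n : ℝ) * (FF / (n : ℝ) ^ 2) := by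
          apply mul_le_mul_of_nonneg_left _ hsig0
          apply sum_le_sum
          intro n hn
          exact mul_le_mul_of_nonneg_left (hpiece n hn) (by positivity)
      _ = (∑ n ∈ N.divisors, 1 / (n : ℝ)) ^ 2 * FF := by
          rw [pow_two, mul_assoc, sum_mul N.divisors _ FF]
          congr 1
          apply sum_congr rfl
          intro n hn
          have hcpos : 0 < (n : ℝ) := by exact_mod_cast Nat.pos_of_mem_divisors hn
          field_simp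
      _ ≤ G ^ 2 * FF := by
          apply mul_le_mul_of_nonneg_right _ hFF0
          exact pow_le_pow_left₀ hsig0 hsig 2
  refine le_trans htotal ?_
  -- numerical bound
  have hℓH : (ℓ : ℝ) / H ≤ ℓ := div_le_self (Nat.cast_nonneg _) hH1
  have hratio : (K + M₁) / M₀ ≤ 2 * (e ^ 2 * e ^ ℓ) := by
    rw [div_le_iff₀ hM0p]
    have h1 : M₁ ≤ M₀ * (e ^ 2 * e ^ ℓ) := by
      rw [hM1eq]
      have : Real.exp ((ℓ : ℝ) / H) ≤ e ^ ℓ := by
        rw [he, ← Real.exp_nat_mul, mul_one]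
        exact Real.exp_le_exp.2 hℓH
      gcongr
    have h2 : (K : ℝ) ≤ M₀ * (e ^ 2 * e ^ ℓ) := by
      have h3 : e ≤ e ^ 2 * e ^ ℓ := by
        have h4 : 1 ≤ e ^ ℓ := one_le_pow₀ he1
        nlinarith
      calc (K : ℝ) ≤ e * M₀ := hKM
        _ ≤ (e ^ 2 * e ^ ℓ) * M₀ := by gcongr
        _ = _ := by ring
    linarith
  have hlogb : 1 + Real.log (M₁ / M₀) ≤ 3 * 2 ^ ℓ := by
    have h1 : M₁ / M₀ = e ^ 2 * Real.exp ((ℓ : ℝ) / H) := by
      rw [hM1eq]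
      field_simp
    rw [h1, Real.log_mul (by positivity) (by positivity), Real.log_exp, Real.log_pow, he,
      Real.log_exp]
    have h2 : (ℓ : ℝ) + 1 ≤ 2 ^ ℓ := by
      have := Nat.lt_two_pow_self (n := ℓ)
      exact_mod_cast this
    have h3 : (1 : ℝ) ≤ 2 ^ ℓ := one_le_pow₀ one_le_two
    push_cast
    linarith
  have hE2 : G ^ 2 * FF ≤ B₀ * (2 * e) ^ ℓ * (ℓ.factorial : ℝ) ^ 4 := by
    have h1 : G ^ 2 * FF = G ^ 5 * C₁ * C₂ * ((K + M₁) / M₀) *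
        (1 + Real.log (M₁ / M₀)) * (ℓ.factorial : ℝ) ^ 4 := by
      rw [hFF]
      field_simp
    rw [h1]
    have hexp2 : Real.exp 2 = e ^ 2 := by
      rw [he, ← Real.exp_nat_mul]
      norm_num
    calc _ ≤ G ^ 5 * C₁ * C₂ * (2 * (e ^ 2 * e ^ ℓ)) * (3 * 2 ^ ℓ) *
          (ℓ.factorial : ℝ) ^ 4 := by gcongr
      _ = B₀ * (2 * e) ^ ℓ * (ℓ.factorial : ℝ) ^ 4 := by
          rw [hB0, hexp2, mul_pow]
          ring
  refine le_trans hE2 ?_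
  have hfac1 : (1 : ℝ) ≤ (ℓ.factorial : ℝ) := by exact_mod_cast Nat.factorial_pos ℓ
  have hfac8 : (ℓ.factorial : ℝ) ^ 4 ≤ (ℓ.factorial : ℝ) ^ 8 :=
    pow_le_pow_right₀ hfac1 (by norm_num)
  have h1 : (2 * e) ^ ℓ ≤ C ^ ℓ := pow_le_pow_left₀ (by positivity) hCe ℓ
  have h2 : 0 ≤ B₀ := by positivity
  calc B₀ * (2 * e) ^ ℓ * (ℓ.factorial : ℝ) ^ 4 ≤ C * C ^ ℓ * (ℓ.factorial : ℝ) ^ 8 := by gcongr
    _ = C ^ (ℓ + 1) * (ℓ.factorial : ℝ) ^ 8 := by ring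

end Pool.Agent.W179.GX
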